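import Mathlib
import Pool.Agent.N183.U8.StmG

set_option autoImplicit false

/-! The symplectic group is generated by transvections. -/

namespace Pool.Agent.N674.GSG

open Module

noncomputable section

section

variable {U : Type} [AddCommGroup U] [Module ℂ U] (β : U →ₗ[ℂ] U →ₗ[ℂ] ℂ)

/-- transvections -/
def T (x : U) : End ℂ U := LinearMap.id + (β x).smulRight x

lemma T_apply (x v : U) : T β x v = v + β x v • x := rfl

/-- the set of transvections -/
def TS : Set (End ℂ U) := {h : End ℂ U | ∃ x : U, ∀ v, h v = v + β x v • x}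

lemma T_mem (x : U) : T β x ∈ Submonoid.closure (TS β) :=
  Submonoid.subset_closure ⟨x, fun v => T_apply β x v⟩

variable {β}

lemma anti (hβ : ∀ u, β u u = 0) (u v : U) : β v u = - β u v := by
  have h := hβ (u + v)
  simp only [map_add, LinearMap.add_apply, hβ] at h
  linear_combination h

lemma T_pres (hβ : ∀ u, β u u = 0) (x u v : U) : β (T β x u) (T β x v) = β u v := by
  rw [T_apply, T_apply]
  simp only [map_add, LinearMap.add_apply, map_smul, LinearMap.smul_apply, smul_eq_mul, hβ]
  rw [anti hβ x u]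
  ring

lemma T_inv (hβ : ∀ u, β u u = 0) (x : U) : T β (Complex.I • x) * T β x = 1 := by
  ext v
  show T β (Complex.I • x) (T β x v) = v
  rw [T_apply, T_apply]
  simp only [map_add, LinearMap.add_apply, map_smul, LinearMap.smul_apply, smul_eq_mul, hβ,
    mul_zero, add_zero]
  rw [smul_smul]
  have h : Complex.I * β x v * Complex.I = - β x v := by
    linear_combination (β x v) * Complex.I_mul_I
  rw [h, neg_smul]
  abel

/-- fixed vectors -/
def Fx (g : End ℂ U) : Submodule ℂ U := LinearMap.eqLocus g LinearMap.id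

lemma mem_Fx {g : End ℂ U} {v : U} : v ∈ Fx g ↔ g v = v := Iff.rfl

/-- Step 1 -/
lemma step1 (hβ : ∀ u, β u u = 0) {g : End ℂ U} (hg : ∀ u v, β (g u) (g v) = β u v) {v : U}
    (hv : β (g v) v ≠ 0) : ∃ x, Fx g ≤ Fx (T β x * g) ∧ v ∈ Fx (T β x * g) := by
  have h1 : β (v - g v) (g v) ≠ 0 := by
    rw [map_sub, LinearMap.sub_apply, hβ, sub_zero, anti hβ (g v) v]
    exact neg_ne_zero.2 hv
  obtain ⟨s, hs⟩ : ∃ s : ℂ, s * s = 1 / β (v - g v) (g v) := by
    obtain ⟨s, hs⟩ := IsAlgClosed.exists_pow_nat_eq (1 / β (v - g v) (g v)) (n := 2) (by norm_num)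
    exact ⟨s, by rw [← hs, sq]⟩
  have hT : ∀ y, T β (s • (v - g v)) y = y + (s * s * β (v - g v) y) • (v - g v) := by
    intro y
    rw [T_apply, map_smul, LinearMap.smul_apply, smul_smul, smul_eq_mul]
    congr 2
    ring
  refine ⟨s • (v - g v), ?_, ?_⟩
  · intro y hy
    have hy' : g y = y := hy
    show T β (s • (v - g v)) (g y) = y
    rw [hT, hy']
    have h2 : β (v - g v) y = 0 := by
      rw [map_sub, LinearMap.sub_apply]
      have h3 : β (g v) y = β v y := by
        have h4 := hg v y
        rwa [hy'] at h4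
      rw [h3, sub_self]
    rw [h2, mul_zero, zero_smul, add_zero]
  · show T β (s • (v - g v)) (g v) = v
    rw [hT, hs, one_div_mul_cancel h1, one_smul]
    abel

/-- two nonzero functionals do not vanish at a suitable vector -/
lemma two (L1 L2 : U →ₗ[ℂ] ℂ) (h1 : ∃ u, L1 u ≠ 0) (h2 : ∃ u, L2 u ≠ 0) :
    ∃ u, L1 u ≠ 0 ∧ L2 u ≠ 0 := by
  obtain ⟨u1, hu1⟩ := h1
  obtain ⟨u2, hu2⟩ := h2
  by_cases h3 : L2 u1 = 0
  · by_cases h4 : L1 u2 = 0
    · exact ⟨u1 + u2, by rw [map_add, h4, add_zero]; exact hu1,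
        by rw [map_add, h3, zero_add]; exact hu2⟩
    · exact ⟨u2, h4, hu2⟩
  · exact ⟨u1, hu1, h3⟩

/-- Step 2 -/
lemma step2 [FiniteDimensional ℂ U] (hβ : ∀ u, β u u = 0)
    (hn : ∀ u, (∀ v, β u v = 0) → u = 0) {g : End ℂ U}
    (hg : ∀ u v, β (g u) (g v) = β u v) {v : U} (hv : g v ≠ v) (h0 : β (g v) v = 0) :
    ∃ x, Fx g ≤ Fx (T β x * g) ∧ β ((T β x * g) v) v ≠ 0 := by
  have hn' : ∀ u, (∀ v, β v u = 0) → u = 0 := by
    intro u h
    refine hn u fun v => ?_
    rw [anti hβ v u, h, neg_zero]
  have hinj : Function.Injective g := by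
    rw [injective_iff_map_eq_zero]
    intro u hu
    refine hn u fun w => ?_
    rw [← hg u w, hu, map_zero, LinearMap.zero_apply]
  have hsurj : Function.Surjective g := LinearMap.injective_iff_surjective.1 hinj
  let L1 : U →ₗ[ℂ] ℂ := (β.flip v).comp g - β.flip v
  let L2 : U →ₗ[ℂ] ℂ := β.flip v - β.flip (g v)
  have hL1 : ∀ u, L1 u = β (g u) v - β u v := fun u => rfl
  have hL2 : ∀ u, L2 u = β u v - β u (g v) := fun u => rfl
  obtain ⟨u, hu1, hu2⟩ := two L1 L2
    (by
      by_contra h
      push Not at h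
      apply hv
      have h1 : v - g v = 0 := by
        refine hn' _ fun w => ?_
        obtain ⟨u, rfl⟩ := hsurj w
        have h2 := h u
        rw [hL1] at h2
        rw [map_sub, hg]
        exact h2
      exact (sub_eq_zero.1 h1).symm)
    (by
      by_contra h
      push Not at h
      apply hv
      have h1 : v - g v = 0 := by
        refine hn' _ fun w => ?_
        have h2 := h w
        rw [hL2] at h2
        rw [map_sub]
        exact h2
      exact (sub_eq_zero.1 h1).symm)
  rw [hL1] at hu1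
  rw [hL2] at hu2
  refine ⟨g u - u, ?_, ?_⟩
  · intro y hy
    have hy' : g y = y := hy
    show T β (g u - u) (g y) = y
    rw [T_apply, hy']
    have h2 : β (g u - u) y = 0 := by
      rw [map_sub, LinearMap.sub_apply]
      have h3 : β (g u) y = β u y := by
        have h4 := hg u y
        rwa [hy'] at h4
      rw [h3, sub_self]
    rw [h2, zero_smul, add_zero]
  · show β (T β (g u - u) (g v)) v ≠ 0
    rw [T_apply, map_add, LinearMap.add_apply, h0, zero_add, map_smul, LinearMap.smul_apply,
      smul_eq_mul]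
    refine mul_ne_zero ?_ ?_
    · rw [map_sub, LinearMap.sub_apply, hg]
      exact hu2
    · rw [map_sub, LinearMap.sub_apply]
      exact hu1

lemma main_aux [FiniteDimensional ℂ U] (hβ : ∀ u, β u u = 0)
    (hn : ∀ u, (∀ v, β u v = 0) → u = 0) :
    ∀ (d : ℕ) (g : End ℂ U), (∀ u v, β (g u) (g v) = β u v) →
      finrank ℂ U ≤ finrank ℂ (Fx g) + d → g ∈ Submonoid.closure (TS β) := by
  -- composing with a transvection
  have hpres : ∀ (g : End ℂ U) (x : U), (∀ u v, β (g u) (g v) = β u v) →
      ∀ u v, β ((T β x * g) u) ((T β x * g) v) = β u v := by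
    intro g x hg u v
    show β (T β x (g u)) (T β x (g v)) = β u v
    rw [T_pres hβ, hg]
  have hback : ∀ (g : End ℂ U) (x : U), T β x * g ∈ Submonoid.closure (TS β) →
      g ∈ Submonoid.closure (TS β) := by
    intro g x h
    have h1 : g = T β (Complex.I • x) * (T β x * g) := by
      rw [← mul_assoc, T_inv hβ, one_mul]
    rw [h1]
    exact Submonoid.mul_mem _ (T_mem β _) h
  intro d
  induction d with
  | zero =>
    intro g _ hd
    have h1 : Fx g = ⊤ := Submodule.eq_top_of_finrank_eq
      (le_antisymm (Submodule.finrank_le _) (by simpa using hd))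
    have h2 : g = 1 := by
      ext v
      have h3 : v ∈ Fx g := by rw [h1]; exact Submodule.mem_top
      exact h3
    rw [h2]
    exact Submonoid.one_mem _
  | succ d ih =>
    intro g hg hd
    by_cases h1 : ∀ v, g v = v
    · have h2 : g = 1 := by
        ext v
        exact h1 v
      rw [h2]
      exact Submonoid.one_mem _
    · push Not at h1
      obtain ⟨v, hv⟩ := h1
      -- the combined step
      obtain ⟨g', hg', hF, hb, hcl⟩ : ∃ g' : End ℂ U, (∀ u v, β (g' u) (g' v) = β u v) ∧
          Fx g ≤ Fx g' ∧ β (g' v) v ≠ 0 ∧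
          (g' ∈ Submonoid.closure (TS β) → g ∈ Submonoid.closure (TS β)) := by
        by_cases h0 : β (g v) v = 0
        · obtain ⟨x, hx1, hx2⟩ := step2 hβ hn hg hv h0
          exact ⟨T β x * g, hpres g x hg, hx1, hx2, hback g x⟩
        · exact ⟨g, hg, le_refl _, h0, id⟩
      apply hcl
      obtain ⟨x, hx1, hx2⟩ := step1 hβ hg' hb
      apply hback g' x
      refine ih _ (hpres g' x hg') ?_
      have h3 : Fx g < Fx (T β x * g') := by
        refine lt_of_le_of_ne (hF.trans hx1) ?_
        intro h4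
        apply hv
        have h5 : v ∈ Fx g := by rw [h4]; exact hx2
        exact h5
      have h6 := Submodule.finrank_lt_finrank_of_lt h3
      omega

end

theorem G : Pool.Agent.N183.U8.S_G := by
  intro U _ _ _ β hβ hn g hg
  exact main_aux hβ hn (finrank ℂ U) g hg (Nat.le_add_left _ _)

end

end Pool.Agent.N674.GSG
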