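import Mathlib
import Pool.Agent.N347.LA.Defs
import Pool.Agent.N347.LB.Stm

set_option autoImplicit false

/-! One deleted edge per component and colour, with bounded load. -/

namespace Pool.Agent.N674.LBDELETE

open Finset Pool.Agent.N347.LA

noncomputable section

/-- the steps of a multigraph -/
abbrev Stp {V : Type} (J : V → V → ℕ) (x y : V) : Prop := 0 < J x y

/-- the connectivity relation -/
def st {V : Type} (J : V → V → ℕ) (hJ : ∀ u v, J u v = J v u) : Setoid V where
  r := Relation.ReflTransGen (fun x y => 0 < J x y)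
  iseqv := ⟨fun _ => Relation.ReflTransGen.refl,
    fun h => by
      induction h with
      | refl => exact Relation.ReflTransGen.refl
      | @tail b c _ h2 ih =>
        have h3 : 0 < J c b := by rw [hJ c b]; exact h2
        exact Relation.ReflTransGen.head h3 ih,
    fun h1 h2 => h1.trans h2⟩

/-- the representative of the component -/
def rp {V : Type} (J : V → V → ℕ) (hJ : ∀ u v, J u v = J v u) (v : V) : V :=
  (Quotient.mk (st J hJ) v).out

lemma rp_eq {V : Type} {J : V → V → ℕ} {hJ : ∀ u v, J u v = J v u} {u v : V} :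
    rp J hJ u = rp J hJ v ↔ Relation.ReflTransGen (fun x y => 0 < J x y) u v := by
  constructor
  · intro h
    have h1 : Quotient.mk (st J hJ) u = Quotient.mk (st J hJ) v := by
      have h2 := congrArg (Quotient.mk (st J hJ)) h
      unfold rp at h2
      rwa [Quotient.out_eq, Quotient.out_eq] at h2
    exact Quotient.exact h1
  · intro h
    have h1 : Quotient.mk (st J hJ) u = Quotient.mk (st J hJ) v := Quotient.sound h
    unfold rp
    rw [h1]

lemma rp_rp {V : Type} {J : V → V → ℕ} {hJ : ∀ u v, J u v = J v u} (v : V) :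
    rp J hJ (rp J hJ v) = rp J hJ v := by
  unfold rp
  rw [Quotient.out_eq]

open Classical in
/-- the component -/
def cmp {V : Type} [Fintype V] (J : V → V → ℕ) (v : V) : Finset V :=
  univ.filter (fun u => Relation.ReflTransGen (fun x y => 0 < J x y) v u)

lemma cmp_eq {V : Type} [Fintype V] {J : V → V → ℕ} (hJ : ∀ u v, J u v = J v u) {u v : V}
    (h : Relation.ReflTransGen (fun x y => 0 < J x y) u v) : cmp J u = cmp J v := by
  classical
  have hs : Relation.ReflTransGen (fun x y => 0 < J x y) v u := (st J hJ).iseqv.symm h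
  unfold cmp
  apply Finset.filter_congr
  intro w _
  exact ⟨fun h1 => hs.trans h1, fun h1 => h.trans h1⟩

lemma ite_le (p q r t : Prop) [Decidable p] [Decidable q] [Decidable r] [Decidable t] :
    (if (p ∧ r) ∨ (q ∧ t) then 1 else 0) ≤
      (if r then (if p then 1 else 0) else 0) + (if t then (if q then 1 else 0) else 0) := by
  by_cases hp : p <;> by_cases hq : q <;> by_cases hr : r <;> by_cases ht : t <;>
    simp [hp, hq, hr, ht]

open Classical in
theorem delete {V : Type} [Fintype V] (n : ℕ) (J : Fin n → V → V → ℕ) (δ κ L : ℕ)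
    (hJs : ∀ i u v, J i u v = J i v u) (hJd : ∀ i v, J i v v = 0)
    (hJr : ∀ i v, ∑ u, J i v u = δ) (hδ : 0 < δ) (hκ0 : 0 < κ)
    (hκ : ∀ i v, κ ≤ (univ.filter (fun u =>
      Relation.ReflTransGen (fun x y => 0 < J i x y) v u)).card)
    (hL : 2 * n ≤ L * κ) :
    ∃ E : Fin n → V → V → ℕ, (∀ i u v, E i u v = E i v u) ∧ (∀ i u v, E i u v ≤ J i u v) ∧
      (∀ i, Conn (fun u v => J i u v - E i u v) (fun v => ∑ u, E i v u)) ∧
      ∀ v, ∑ i, ∑ u, E i v u ≤ L + 3 := by
  -- notation
  let r : Fin n → V → V := fun i => rp (J i) (hJs i)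
  have hr : ∀ i u v, r i u = r i v ↔ Relation.ReflTransGen (fun x y => 0 < J i x y) u v :=
    fun i u v => rp_eq
  have hrr : ∀ i v, r i (r i v) = r i v := fun i v => rp_rp v
  let T : Type := {e : Fin n × V × V // 0 < J e.1 e.2.1 e.2.2}
  let P : Type := {p : Fin n × V // r p.1 p.2 = p.2}
  let part : T → P := fun e => ⟨(e.1.1, r e.1.1 e.1.2.1), hrr _ _⟩
  let c : Fin n → V → ℝ := fun i v => ((cmp (J i) v).card : ℝ)
  have hδ' : (0 : ℝ) < δ := by exact_mod_cast hδ
  have hκ' : (0 : ℝ) < κ := by exact_mod_cast hκ0
  have hc : ∀ i v, (κ : ℝ) ≤ c i v := fun i v => by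
    have := hκ i v
    show (κ : ℝ) ≤ ((cmp (J i) v).card : ℝ)
    exact_mod_cast this
  have hc0 : ∀ i v, 0 < c i v := fun i v => hκ'.trans_le (hc i v)
  have hcc : ∀ i u v, Relation.ReflTransGen (fun x y => 0 < J i x y) u v → c i u = c i v := by
    intro i u v h
    show ((cmp (J i) u).card : ℝ) = ((cmp (J i) v).card : ℝ)
    rw [cmp_eq (hJs i) h]
  let y : Fin n × V × V → ℝ := fun e => (J e.1 e.2.1 e.2.2 : ℝ) / (δ * c e.1 e.2.1)
  have hy0 : ∀ e, 0 ≤ y e := fun e =>
    div_nonneg (Nat.cast_nonneg _) (mul_nonneg hδ'.le (hc0 _ _).le)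
  -- sums over T
  have hsumT : ∀ (q : Fin n × V × V → Prop), ∑ e ∈ (univ : Finset T).filter (fun e => q e.1), y e.1
      = ∑ i, ∑ u, ∑ v, if q (i, u, v) then y (i, u, v) else 0 := by
    intro q
    rw [Finset.sum_filter]
    have h1 : ∑ e : T, (if q e.1 then y e.1 else 0) =
        ∑ e ∈ univ.filter (fun e : Fin n × V × V => 0 < J e.1 e.2.1 e.2.2),
          (if q e then y e else 0) :=
      (Finset.sum_subtype (univ.filter (fun e : Fin n × V × V => 0 < J e.1 e.2.1 e.2.2))
        (fun e => by simp) (fun e => if q e then y e else 0)).symm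
    rw [h1, Finset.sum_filter_of_ne, Fintype.sum_prod_type]
    · refine Finset.sum_congr rfl fun i _ => ?_
      rw [Fintype.sum_prod_type]
    · intro e _ he
      by_contra h0
      apply he
      have h2 : J e.1 e.2.1 e.2.2 = 0 := by omega
      have h3 : y e = 0 := by
        show (J e.1 e.2.1 e.2.2 : ℝ) / _ = 0
        rw [h2]; simp
      rw [h3]; simp
  -- row sums
  have hrow : ∀ i u, ∑ v, y (i, u, v) = 1 / c i u := by
    intro i u
    show ∑ v, (J i u v : ℝ) / (δ * c i u) = 1 / c i u
    rw [← Finset.sum_div, ← Nat.cast_sum, hJr]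
    have := (hc0 i u).ne'
    field_simp
  have hcol : ∀ i v, ∑ u, y (i, u, v) = 1 / c i v := by
    intro i v
    rw [← hrow i v]
    refine Finset.sum_congr rfl fun u _ => ?_
    show (J i u v : ℝ) / (δ * c i u) = (J i v u : ℝ) / (δ * c i v)
    rcases Nat.eq_zero_or_pos (J i u v) with h0 | h0
    · rw [hJs i v u, h0]; simp
    · rw [hJs i v u, hcc i u v (Relation.ReflTransGen.single h0)]
  obtain ⟨s, hs, hsL⟩ := Pool.Agent.N347.LB.Stm.round (E := T) (P := P) (V := V) part
    (fun e => e.1.2.1) (fun e => e.1.2.2) (fun e => y e.1) (fun e => hy0 _)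
    (by
      rintro ⟨⟨i, w⟩, hw⟩
      have hw' : r i w = w := hw
      obtain ⟨q0, hq0⟩ : ∃ q0 : Fin n × V × V → Prop,
          ∀ e, q0 e ↔ (e.1 = i ∧ r e.1 e.2.1 = w) := ⟨_, fun e => Iff.rfl⟩
      have h1 : (univ : Finset T).filter (fun e => part e = ⟨(i, w), hw⟩) =
          (univ : Finset T).filter (fun e => q0 e.1) := by
        apply Finset.filter_congr
        intro e _
        rw [hq0]
        constructor
        · intro h
          have h2 := congrArg Subtype.val h
          exact ⟨congrArg Prod.fst h2, congrArg Prod.snd h2⟩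
        · rintro ⟨h2, h3⟩
          exact Subtype.ext (Prod.ext h2 h3)
      rw [h1, hsumT q0]
      rw [Finset.sum_eq_single i]
      · have h2 : ∀ u, (∑ v, if q0 (i, u, v) then y (i, u, v) else 0) =
            if r i u = w then 1 / c i w else 0 := by
          intro u
          by_cases hu : r i u = w
          · have h3 : ∀ v, q0 (i, u, v) := fun v => (hq0 _).2 ⟨rfl, hu⟩
            simp only [h3, if_true]
            rw [hrow, if_pos hu]
            rw [hcc i u w ((hr i u w).1 (hu.trans hw'.symm))]
          · have h3 : ∀ v, ¬ q0 (i, u, v) := fun v h => hu ((hq0 _).1 h).2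
            simp only [h3, if_false, Finset.sum_const_zero, if_neg hu]
        calc _ = ∑ u, (if r i u = w then 1 / c i w else 0) :=
              Finset.sum_congr rfl fun u _ => h2 u
          _ = 1 := by
            rw [← Finset.sum_filter, Finset.sum_const, nsmul_eq_mul]
            have h3 : (univ.filter (fun u => r i u = w)) = cmp (J i) w := by
              unfold cmp
              apply Finset.filter_congr
              intro u _
              rw [← hr i w u, hw']
              exact eq_comm
            rw [h3]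
            have := (hc0 i w).ne'
            show ((cmp (J i) w).card : ℝ) * (1 / ((cmp (J i) w).card : ℝ)) = 1
            exact mul_one_div_cancel this
      · intro j _ hj
        apply Finset.sum_eq_zero
        intro u _
        apply Finset.sum_eq_zero
        intro v _
        exact if_neg fun h => hj ((hq0 _).1 h).1
      · intro h
        exact absurd (Finset.mem_univ i) h)
    L
    (by
      intro v
      have h1 := hsumT (fun e => e.2.1 = v)
      have h2 := hsumT (fun e => e.2.2 = v)
      have h3 : (∑ i, ∑ u, ∑ w, if u = v then y (i, u, w) else 0) = ∑ i, 1 / c i v := by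
        refine Finset.sum_congr rfl fun i _ => ?_
        rw [Finset.sum_eq_single v]
        · simp only [if_true]
          exact hrow i v
        · intro u _ hu
          simp [hu]
        · intro h
          exact absurd (Finset.mem_univ v) h
      have h4 : (∑ i, ∑ u, ∑ w, if w = v then y (i, u, w) else 0) = ∑ i, 1 / c i v := by
        refine Finset.sum_congr rfl fun i _ => ?_
        rw [← hcol i v]
        refine Finset.sum_congr rfl fun u _ => ?_
        rw [Finset.sum_ite_eq' univ v]
        simp
      have h5 : ∑ i : Fin n, 1 / c i v ≤ n * (1 / κ) := by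
        calc ∑ i : Fin n, 1 / c i v ≤ ∑ _i : Fin n, (1 / κ : ℝ) :=
              Finset.sum_le_sum fun i _ => one_div_le_one_div_of_le hκ' (hc i v)
          _ = n * (1 / κ) := by simp
      have h6 : (2 * n : ℝ) ≤ L * κ := by exact_mod_cast hL
      have h7 : 2 * ((n : ℝ) * (1 / κ)) ≤ L := by
        rw [← mul_assoc, mul_one_div, div_le_iff₀ hκ']
        exact h6
      have h8 : ∑ e ∈ (univ : Finset T).filter (fun e => e.1.2.1 = v), y e.1 =
          ∑ i, 1 / c i v := by
        rw [← h3]
        exact h1
      have h9 : ∑ e ∈ (univ : Finset T).filter (fun e => e.1.2.2 = v), y e.1 =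
          ∑ i, 1 / c i v := by
        rw [← h4]
        exact h2
      have h10 : ∑ e ∈ (univ : Finset T).filter (fun e => e.1.2.1 = v), y e.1 +
          ∑ e ∈ (univ : Finset T).filter (fun e => e.1.2.2 = v), y e.1 ≤ L := by
        rw [h8, h9]
        linarith
      exact h10)
  -- the chosen pairs
  let p : Fin n → V → P := fun i u => ⟨(i, r i u), hrr i u⟩
  let A : Fin n → V → V := fun i u => (s (p i u)).1.2.1
  let B : Fin n → V → V := fun i u => (s (p i u)).1.2.2
  have hpc : ∀ i u v, Relation.ReflTransGen (fun x y => 0 < J i x y) u v → p i u = p i v := by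
    intro i u v h
    exact Subtype.ext (Prod.ext rfl ((hr i u v).2 h))
  have hs1 : ∀ i u, (s (p i u)).1.1 = i := by
    intro i u
    exact congrArg Prod.fst (congrArg Subtype.val (hs (p i u)))
  have hAB : ∀ i u, 0 < J i (A i u) (B i u) := by
    intro i u
    have h1 := (s (p i u)).2
    have h2 := hs1 i u
    have h3 : ∀ (e : Fin n × V × V), 0 < J e.1 e.2.1 e.2.2 → e.1 = i → 0 < J i e.2.1 e.2.2 := by
      rintro ⟨j, a, b⟩ h rfl
      exact h
    exact h3 _ h1 h2
  have hA : ∀ i u, Relation.ReflTransGen (fun x y => 0 < J i x y) u (A i u) := by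
    intro i u
    have h1 := congrArg Prod.snd (congrArg Subtype.val (hs (p i u)))
    have h3 : ∀ (e : Fin n × V × V), r e.1 e.2.1 = r i u → e.1 = i → r i e.2.1 = r i u := by
      rintro ⟨j, a, b⟩ h rfl
      exact h
    exact (hr i u (A i u)).1 (h3 _ h1 (hs1 i u)).symm
  have hB : ∀ i u, Relation.ReflTransGen (fun x y => 0 < J i x y) u (B i u) := fun i u =>
    (hA i u).tail (hAB i u)
  have hAc : ∀ i u v, Relation.ReflTransGen (fun x y => 0 < J i x y) u v → A i u = A i v := by
    intro i u v h
    show (s (p i u)).1.2.1 = (s (p i v)).1.2.1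
    rw [hpc i u v h]
  have hBc : ∀ i u v, Relation.ReflTransGen (fun x y => 0 < J i x y) u v → B i u = B i v := by
    intro i u v h
    show (s (p i u)).1.2.2 = (s (p i v)).1.2.2
    rw [hpc i u v h]
  -- the deleted edges
  have hsym : ∀ i u v, ((u = A i u ∧ v = B i u) ∨ (u = B i u ∧ v = A i u)) →
      ((v = A i v ∧ u = B i v) ∨ (v = B i v ∧ u = A i v)) := by
    rintro i u v (⟨h1, h2⟩ | ⟨h1, h2⟩)
    · have h3 : Relation.ReflTransGen (fun x y => 0 < J i x y) u v := by
        rw [h2]; exact hB i u
      right
      rw [← hAc i u v h3, ← hBc i u v h3]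
      exact ⟨h2, h1⟩
    · have h3 : Relation.ReflTransGen (fun x y => 0 < J i x y) u v := by
        rw [h2]; exact hA i u
      left
      rw [← hAc i u v h3, ← hBc i u v h3]
      exact ⟨h2, h1⟩
  refine ⟨fun i u v => if (u = A i u ∧ v = B i u) ∨ (u = B i u ∧ v = A i u) then 1 else 0,
    ?_, ?_, ?_, ?_⟩
  · intro i u v
    by_cases h : (u = A i u ∧ v = B i u) ∨ (u = B i u ∧ v = A i u)
    · simp only [if_pos h, if_pos (hsym i u v h)]
    · have h' : ¬ ((v = A i v ∧ u = B i v) ∨ (v = B i v ∧ u = A i v)) := fun h' =>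
        h (hsym i v u h')
      simp only [if_neg h, if_neg h']
  · intro i u v
    show (if (u = A i u ∧ v = B i u) ∨ (u = B i u ∧ v = A i u) then 1 else 0) ≤ J i u v
    split_ifs with h
    · have h0 := hAB i u
      rcases h with ⟨h1, h2⟩ | ⟨h1, h2⟩
      · rw [← h1, ← h2] at h0
        exact h0
      · rw [← h1, ← h2, hJs] at h0
        exact h0
    · exact Nat.zero_le _
  · intro i x
    have hA' : ∀ z, Relation.ReflTransGen (fun x y => 0 < J i x y) z x → A i z = A i x :=
      fun z hz => hAc i z x hz
    have key : ∀ z, Relation.ReflTransGen (fun x y => 0 < J i x y) z (A i x) →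
        ∃ w, (w = A i x ∨ w = B i x) ∧ Relation.ReflTransGen (fun u v => 0 < J i u v -
          (if (u = A i u ∧ v = B i u) ∨ (u = B i u ∧ v = A i u) then 1 else 0)) z w := by
      intro z hz
      induction hz using Relation.ReflTransGen.head_induction_on with
      | refl => exact ⟨_, Or.inl rfl, Relation.ReflTransGen.refl⟩
      | @head z z' h1 h2 ih =>
        by_cases hz : z = A i x ∨ z = B i x
        · exact ⟨z, hz, Relation.ReflTransGen.refl⟩
        · obtain ⟨w, hw, hp⟩ := ih
          refine ⟨w, hw, Relation.ReflTransGen.head ?_ hp⟩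
          have h3 : Relation.ReflTransGen (fun x y => 0 < J i x y) z (A i x) :=
            Relation.ReflTransGen.head h1 h2
          have h4 : Relation.ReflTransGen (fun x y => 0 < J i x y) x (A i x) := hA i x
          have h5 : p i z = p i x := (hpc i z _ h3).trans (hpc i x _ h4).symm
          have h6 : A i z = A i x := by
            show (s (p i z)).1.2.1 = (s (p i x)).1.2.1
            rw [h5]
          have h7 : B i z = B i x := by
            show (s (p i z)).1.2.2 = (s (p i x)).1.2.2
            rw [h5]
          have h8 : ¬ ((z = A i z ∧ z' = B i z) ∨ (z = B i z ∧ z' = A i z)) := by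
            rintro (⟨h, _⟩ | ⟨h, _⟩)
            · exact hz (Or.inl (h.trans h6))
            · exact hz (Or.inr (h.trans h7))
          simp only [if_neg h8]
          omega
    obtain ⟨w, hw, hp⟩ := key x (hA i x)
    refine ⟨w, hp, ?_⟩
    have hAA : A i (A i x) = A i x := (hAc i x _ (hA i x)).symm
    have hBA : B i (A i x) = B i x := (hBc i x _ (hA i x)).symm
    have hAB' : A i (B i x) = A i x := (hAc i x _ (hB i x)).symm
    have hBB : B i (B i x) = B i x := (hBc i x _ (hB i x)).symm
    rcases hw with rfl | rfl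
    · refine lt_of_lt_of_le Nat.zero_lt_one (le_trans ?_
        (Finset.single_le_sum (fun _ _ => Nat.zero_le _) (Finset.mem_univ (B i x))))
      have h9 : (A i x = A i (A i x) ∧ B i x = B i (A i x)) ∨
          (A i x = B i (A i x) ∧ B i x = A i (A i x)) := Or.inl ⟨hAA.symm, hBA.symm⟩
      simp only [if_pos h9, le_refl]
    · refine lt_of_lt_of_le Nat.zero_lt_one (le_trans ?_
        (Finset.single_le_sum (fun _ _ => Nat.zero_le _) (Finset.mem_univ (A i x))))
      have h9 : (B i x = A i (B i x) ∧ A i x = B i (B i x)) ∨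
          (B i x = B i (B i x) ∧ A i x = A i (B i x)) := Or.inr ⟨hBB.symm, hAB'.symm⟩
      simp only [if_pos h9, le_refl]
  · intro v
    have h1 : ∀ i, ∑ u, (if (v = A i v ∧ u = B i v) ∨ (v = B i v ∧ u = A i v) then 1 else 0) ≤
        (if v = A i v then 1 else 0) + (if v = B i v then 1 else 0) := by
      intro i
      calc ∑ u, (if (v = A i v ∧ u = B i v) ∨ (v = B i v ∧ u = A i v) then 1 else 0)
          ≤ ∑ u, ((if u = B i v then (if v = A i v then 1 else 0) else 0) +
            (if u = A i v then (if v = B i v then 1 else 0) else 0)) := by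
            apply Finset.sum_le_sum
            intro u _
            exact ite_le (v = A i v) (v = B i v) (u = B i v) (u = A i v)
        _ = _ := by
            rw [Finset.sum_add_distrib, Finset.sum_ite_eq' univ, Finset.sum_ite_eq' univ]
            simp
    have h2 : ∑ i : Fin n, (if v = A i v then 1 else 0) ≤
        (univ.filter (fun q : P => (s q).1.2.1 = v)).card := by
      rw [← Finset.card_filter]
      refine Finset.card_le_card_of_injOn (fun i => p i v) ?_ ?_
      · intro i hi
        have hi' : v = A i v := (Finset.mem_filter.1 (Finset.mem_coe.1 hi)).2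
        exact Finset.mem_coe.2 (Finset.mem_filter.2 ⟨Finset.mem_univ _, hi'.symm⟩)
      · intro i _ j _ hij
        exact congrArg Prod.fst (congrArg Subtype.val hij)
    have h3 : ∑ i : Fin n, (if v = B i v then 1 else 0) ≤
        (univ.filter (fun q : P => (s q).1.2.2 = v)).card := by
      rw [← Finset.card_filter]
      refine Finset.card_le_card_of_injOn (fun i => p i v) ?_ ?_
      · intro i hi
        have hi' : v = B i v := (Finset.mem_filter.1 (Finset.mem_coe.1 hi)).2
        exact Finset.mem_coe.2 (Finset.mem_filter.2 ⟨Finset.mem_univ _, hi'.symm⟩)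
      · intro i _ j _ hij
        exact congrArg Prod.fst (congrArg Subtype.val hij)
    calc ∑ i, ∑ u, (if (v = A i v ∧ u = B i v) ∨ (v = B i v ∧ u = A i v) then 1 else 0)
        ≤ ∑ i : Fin n, ((if v = A i v then 1 else 0) + (if v = B i v then 1 else 0)) :=
          Finset.sum_le_sum fun i _ => h1 i
      _ = ∑ i : Fin n, (if v = A i v then 1 else 0) + ∑ i : Fin n, (if v = B i v then 1 else 0) :=
          Finset.sum_add_distrib
      _ ≤ _ := Nat.add_le_add h2 h3
      _ ≤ L + 3 := hsL v

end

end Pool.Agent.N674.LBDELETE
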