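import Mathlib
import Pool.Agent.N59.TT.Stm

set_option autoImplicit false

/-! Finitely generated virtually abelian groups have polynomial growth. -/

namespace Pool.Agent.N674.TTGP

open scoped Pointwise
open Pool.Agent.N59.TT

noncomputable section

section

variable {G : Type} [Group G] (A : Subgroup G) (hA : ∀ x ∈ A, ∀ y ∈ A, x * y = y * x)

/-- the commutative group `A` -/
@[reducible] def cg : CommGroup A :=
  { (inferInstance : Group A) with
    mul_comm := fun x y => Subtype.ext (hA x x.2 y y.2) }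

/-- the element of `A` attached to `s` and a coset -/
def yv (s : G) (q : G ⧸ A) : A :=
  ⟨(s • q).out⁻¹ * (s * q.out), by
    rw [← QuotientGroup.eq, QuotientGroup.out_eq']
    have h1 : (QuotientGroup.mk (s * q.out) : G ⧸ A) = s • (QuotientGroup.mk q.out : G ⧸ A) := rfl
    rw [h1, QuotientGroup.out_eq']⟩

lemma yv_spec (s : G) (q : G ⧸ A) : s * q.out = (s • q).out * (yv A s q : G) := by
  show s * q.out = (s • q).out * ((s • q).out⁻¹ * (s * q.out))
  rw [mul_inv_cancel_left]

end

theorem main : S_GP := by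
  classical
  rintro G _ S _ ⟨A, hAi, hA⟩
  letI : CommGroup A := cg A hA
  haveI : Finite (G ⧸ A) := Subgroup.finite_quotient_of_finiteIndex
  let B : Set G := (S : Set G) ∪ (S : Set G)⁻¹ ∪ {1}
  have hB : B.Finite := ((S.finite_toSet).union (S.finite_toSet).inv).union (Set.finite_singleton 1)
  haveI : Finite B := hB
  let ι : Type := B × (G ⧸ A)
  haveI : Fintype ι := Fintype.ofFinite ι
  let y : ι → A := fun i => yv A i.1.1 i.2
  let o : G := (QuotientGroup.mk 1 : G ⧸ A).out
  let F : ∀ n : ℕ, (G ⧸ A) × (ι → Fin (n + 1)) → G := fun n p =>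
    p.1.out * ((∏ i, y i ^ (p.2 i : ℕ) : A) : G) * o⁻¹
  have key : ∀ n : ℕ, B ^ n ⊆ F n '' Set.univ := by
    intro n
    induction n with
    | zero =>
      intro g hg
      rw [pow_zero, Set.mem_one] at hg
      refine ⟨(QuotientGroup.mk 1, fun _ => 0), Set.mem_univ _, ?_⟩
      show (QuotientGroup.mk 1 : G ⧸ A).out * ((∏ i : ι, y i ^ ((0 : Fin 1) : ℕ) : A) : G) * o⁻¹ = g
      simp only [Fin.val_zero, pow_zero, Finset.prod_const_one, OneMemClass.coe_one, mul_one]
      rw [hg]
      exact mul_inv_cancel o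
    | succ n ih =>
      intro g hg
      rw [pow_succ'] at hg
      obtain ⟨s, hs, g', hg', rfl⟩ := Set.mem_mul.1 hg
      obtain ⟨⟨q, k⟩, -, hk⟩ := ih hg'
      let i₀ : ι := (⟨s, hs⟩, q)
      refine ⟨(s • q, fun i => if i = i₀ then (k i).succ else (k i).castSucc), Set.mem_univ _, ?_⟩
      have h1 : ∏ i : ι, y i ^ (((if i = i₀ then (k i).succ else (k i).castSucc :
          Fin (n + 2))) : ℕ) = y i₀ * ∏ i : ι, y i ^ (k i : ℕ) := by
        have h2 : ∀ i : ι, y i ^ (((if i = i₀ then (k i).succ else (k i).castSucc :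
            Fin (n + 2))) : ℕ) = (if i = i₀ then y i else 1) * y i ^ (k i : ℕ) := by
          intro i
          split_ifs with h
          · rw [Fin.val_succ, pow_succ, mul_comm]
          · rw [Fin.val_castSucc, one_mul]
        rw [Finset.prod_congr rfl fun i _ => h2 i, Finset.prod_mul_distrib,
          Finset.prod_ite_eq' Finset.univ i₀ y, if_pos (Finset.mem_univ _)]
      show (s • q).out * ((∏ i : ι, y i ^ (((if i = i₀ then (k i).succ else (k i).castSucc :
          Fin (n + 2))) : ℕ) : A) : G) * o⁻¹ = s * g'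
      rw [h1, ← hk]
      show (s • q).out * ((y i₀ * ∏ i : ι, y i ^ (k i : ℕ) : A) : G) * o⁻¹ =
        s * (q.out * ((∏ i : ι, y i ^ (k i : ℕ) : A) : G) * o⁻¹)
      have h3 : ((y i₀ * ∏ i : ι, y i ^ (k i : ℕ) : A) : G) =
          (yv A s q : G) * ((∏ i : ι, y i ^ (k i : ℕ) : A) : G) := rfl
      rw [h3, ← mul_assoc (s • q).out, ← yv_spec A s q]
      simp only [mul_assoc]
  refine ⟨Nat.card (G ⧸ A) + Fintype.card ι, fun n => ?_⟩
  have h1 : growth S n ≤ Nat.card ((G ⧸ A) × (ι → Fin (n + 1))) := by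
    show (B ^ n).ncard ≤ _
    calc (B ^ n).ncard ≤ (F n '' Set.univ).ncard :=
          Set.ncard_le_ncard (key n) (Set.toFinite _)
      _ ≤ (Set.univ : Set ((G ⧸ A) × (ι → Fin (n + 1)))).ncard :=
          Set.ncard_image_le (Set.toFinite _)
      _ = _ := Set.ncard_univ _
  have h2 : Nat.card ((G ⧸ A) × (ι → Fin (n + 1))) =
      Nat.card (G ⧸ A) * (n + 1) ^ Fintype.card ι := by
    rw [Nat.card_prod, Nat.card_fun, Nat.card_eq_fintype_card (α := Fin (n + 1)),
      Fintype.card_fin, Nat.card_eq_fintype_card (α := ι)]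
  rw [h2] at h1
  refine h1.trans (Nat.mul_le_mul (Nat.le_add_right _ _) ?_)
  exact Nat.pow_le_pow_right (Nat.succ_pos n) (Nat.le_add_left _ _)

end

end Pool.Agent.N674.TTGP
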